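import Mathlib
import Pool.Agent.Lib.MP_74fee8_an.U.Final

/-!
Uniqueness of the topology of semisimple Fréchet algebras, real or complex, unital or not. The
second topology need not be locally convex.
-/

set_option autoImplicit false

universe u v

namespace Pool.Agent.Results.MP_74fee8_an.UniqueTopology

/-- Every sequence in `A` that is Cauchy for the additive group topology `τ` converges. -/
def CauchyComplete {A : Type u} [AddCommGroup A] (τ : TopologicalSpace A) : Prop :=
  ∀ s : ℕ → A, (∀ U ∈ @nhds A τ 0, ∃ N, ∀ j, N ≤ j → ∀ k, N ≤ k → s j - s k ∈ U) →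
    ∃ x, Filter.Tendsto s Filter.atTop (@nhds A τ x)

/-- `τ` is a Fréchet algebra topology on the `𝕜`-algebra `A`: it is metrizable and complete, and it
is defined by a sequence of submultiplicative seminorms. -/
structure IsFrechetAlgebraTopology (𝕜 : Type v) [RCLike 𝕜] {A : Type u} [NonUnitalRing A]
    [Module 𝕜 A] (τ : TopologicalSpace A) : Prop where
  metrizable : @TopologicalSpace.MetrizableSpace A τ
  complete : CauchyComplete τ
  seminorms : ∃ p : ℕ → Seminorm 𝕜 A, @WithSeminorms 𝕜 A ℕ _ _ _ p τ ∧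
    ∀ n x y, p n (x * y) ≤ p n x * p n y

/-- `τ` is a complete metrizable algebra topology on the `𝕜`-algebra `A`, locally convex or not: it
is metrizable and complete, and addition, multiplication and scalar multiplication are jointly
continuous. -/
structure IsCompleteMetrizableAlgebraTopology (𝕜 : Type v) [RCLike 𝕜] {A : Type u}
    [NonUnitalRing A] [Module 𝕜 A] (τ : TopologicalSpace A) : Prop where
  metrizable : @TopologicalSpace.MetrizableSpace A τ
  complete : CauchyComplete τ
  ring : @IsTopologicalRing A τ _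
  smul : @ContinuousSMul 𝕜 A _ _ τ

/-- Let `A` be a real or complex associative algebra, unital or not, such that the Jacobson radical
of its unitization is zero. Any two Fréchet algebra topologies on `A` coincide. Moreover a Fréchet
algebra topology on `A` coincides with every complete metrizable algebra topology on `A`. -/
theorem result (𝕜 : Type v) [RCLike 𝕜] (A : Type u) [NonUnitalRing A] [Module 𝕜 A]
    [IsScalarTower 𝕜 A A] [SMulCommClass 𝕜 A A] (hA : Ring.jacobson (Unitization 𝕜 A) = ⊥) :
    (∀ τ₁ τ₂ : TopologicalSpace A, IsFrechetAlgebraTopology 𝕜 τ₁ →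
      IsFrechetAlgebraTopology 𝕜 τ₂ → τ₁ = τ₂) ∧
    (∀ τ₁ τ₂ : TopologicalSpace A, IsFrechetAlgebraTopology 𝕜 τ₁ →
      IsCompleteMetrizableAlgebraTopology 𝕜 τ₂ → τ₁ = τ₂) := by
  have key : ∀ τ₁ τ₂ : TopologicalSpace A, IsFrechetAlgebraTopology 𝕜 τ₁ →
      IsCompleteMetrizableAlgebraTopology 𝕜 τ₂ → τ₁ = τ₂ := fun τ₁ τ₂ h₁ h₂ =>
    Pool.Agent.Lib.MP_74fee8_an.U.unique hA τ₁ τ₂ h₁.metrizable h₁.complete h₁.seminorms
      h₂.metrizable h₂.complete h₂.ring h₂.smul
  refine ⟨fun τ₁ τ₂ h₁ h₂ => key τ₁ τ₂ h₁ ⟨h₂.metrizable, h₂.complete, ?_, ?_⟩, key⟩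
  · obtain ⟨p, hp, hps⟩ := h₂.seminorms
    let _ := τ₂
    exact Pool.Agent.Lib.MP_74fee8_an.U.isTopologicalRing_of_seminorms hp hps
  · obtain ⟨p, hp, _⟩ := h₂.seminorms
    let _ := τ₂
    exact hp.continuousSMul

end Pool.Agent.Results.MP_74fee8_an.UniqueTopology
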